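import Pool.Agent.U896.MF.PubMF
import Pool.Agent.U896.SC.FinalCL
import Pool.Agent.Q130.SF.Cls

/-!
# Families of symplectic forms in a prescribed class
-/

set_option autoImplicit false

open Set Filter Topology MeasureTheory
open scoped Manifold ContDiff

noncomputable section

namespace Pool.Agent.U896.MFP

open Pool.Agent.Y501
open Pool.Agent.Y501.SYP Pool.Agent.U896.SEP Pool.Agent.U896.SWP Pool.Agent.U896.SVP
  Pool.Agent.U896.SCP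

section

variable {d : ℕ} {X : Type} [TopologicalSpace X] [ChartedSpace (ES d) X] {P : Type}
  [TopologicalSpace P]

attribute [local instance] cs mf

theorem tamed_of [IsManifold 𝓘(ℝ, ES d) ∞ X] [CompactSpace X] [T2Space X] (hd : 0 < d)
    {σ₀ : Form (ES d) X 2} (hσ₀ : IsSmooth σ₀) (hσ₀c : IsClosedForm σ₀) {J : End (ES d) X}
    (hJ : IsAlmostComplex J) (h : WeaklyTamedIn σ₀ J) :
    ∃ w : Form (ES d) X 2, IsTamingSymplectic w J ∧ Cohomologous w σ₀ := by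
  obtain ⟨N, β, σ, hN, hβ, hσ, hw, hpos, hsmall, h⟩ := h
  rcases h with hb | ⟨a, γ, ha, haγ, hγ, hM, hHol⟩
  · obtain ⟨α, ρ, h1, h2, h3, h4, -⟩ := measurableC hd J hJ N hN σ₀ hσ₀ hσ₀c β σ hβ hσ hw hb hpos
      hsmall
    exact ⟨_, h4, α, ρ, h1, h2, h3, rfl⟩
  · obtain ⟨α, ρ, h1, h2, h3, h4, -⟩ := sobolevC hd ha haγ hγ J hJ hHol N hN σ₀ hσ₀ hσ₀c β σ hβ hσ
      hw hM hpos hsmall
    exact ⟨_, h4, α, ρ, h1, h2, h3, rfl⟩

theorem familiesMF [IsManifold 𝓘(ℝ, ES d) ∞ X] [CompactSpace X] [T2Space X] (hd : 0 < d)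
    [CompactSpace P] [T2Space P] (Q N : Set P) (hQ : IsClosed Q) (hN : IsOpen N) (hQN : Q ⊆ N)
    (r : P → P) (hr : ContinuousOn r N) (hrQ : ∀ p ∈ N, r p ∈ Q) (hrid : ∀ q ∈ Q, r q = q)
    (J : P → End (ES d) X) (hJ : ContinuousACS J)
    (σ₀ : Form (ES d) X 2) (hσ₀ : IsSmooth σ₀) (hσ₀c : IsClosedForm σ₀)
    (η : P → Form (ES d) X 2) (hη : FamilyInClass σ₀ Q η)
    (hηt : ∀ q ∈ Q, ∀ x, TamesAt (η q) (J q) x) (hw : ∀ p, p ∉ Q → WeaklyTamedIn σ₀ (J p)) :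
    ∃ Ω : P → Form (ES d) X 2, FamilyInClass σ₀ univ Ω ∧ (∀ p x, TamesAt (Ω p) (J p) x) ∧
      (∀ p, NondegForm (Ω p)) ∧ ∀ q ∈ Q, Ω q = η q := by
  classical
  have hex : ∀ p, p ∉ Q → ∃ w : Form (ES d) X 2, IsTamingSymplectic w (J p) ∧
      Cohomologous w σ₀ := fun p hp => tamed_of hd hσ₀ hσ₀c (hJ.1 p) (hw p hp)
  choose! w hw1 hw2 using hex
  have hJF : Pool.Agent.Q130.SF.JFam (d := d) (X := X) J := by
    intro x₀
    rw [continuousOn_clm_apply]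
    exact fun v => hJ.2 x₀ v
  obtain ⟨Ω, κ, k1, k2, -, k4, k5, k6⟩ := Pool.Agent.Q130.SF.extendS (d := d) (X := X) hQ hN hQN
    hr hrQ hrid hJF (η := η) (w := w) (fun U φ hU hφ => hη.2 U φ ⟨hU, hφ⟩)
    (fun q hq => (hη.1 q hq).1) hηt (fun p hp => (hw1 p hp).smooth)
    (fun p hp => (hw1 p hp).tames) (fun _ => 0)
  have hC : Convex ℝ {z : Form (ES d) X 2 × ℝ | z.1 ∈ {σ : Form (ES d) X 2 | IsSmooth σ ∧
      IsClosedForm σ ∧ Pool.Agent.Q130.SF.Coh σ σ₀}} := by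
    have h1 := Pool.Agent.Q130.SF.convex_class (d := d) (X := X) σ₀
    rintro ⟨z, s⟩ hz ⟨z', s'⟩ hz' a b ha hb hab
    exact h1 hz hz' ha hb hab
  have hcl := k6 _ hC (fun q hq => hη.1 q hq)
    (fun p hp => ⟨(hw1 p hp).smooth, (hw1 p hp).closed, hw2 p hp⟩)
  refine ⟨Ω, ⟨fun p _ => hcl p, fun U φ hφ => k2 U φ hφ.1 hφ.2⟩, k5, fun p => ?_,
    fun q hq => (k1 q hq).1⟩
  have h2 := segment_nondeg (τ := Ω p) (w := Ω p) (J := J p) (k5 p) (k5 p) 0 le_rfl zero_le_one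
  have h3 : segment (Ω p) (Ω p) 0 = Ω p := by
    funext x
    show (1 - (0 : ℝ)) • Ω p x + (0 : ℝ) • Ω p x = Ω p x
    rw [sub_zero, one_smul, zero_smul, add_zero]
  rwa [h3] at h2

end

end Pool.Agent.U896.MFP
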