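import Pool.Agent.U896.SC.PubC
import Pool.Agent.U896.SV.PubL
import Pool.Agent.U896.SE.PubE
import Pool.Agent.Y501.SY.PubV

/-!
Families of symplectic forms in a prescribed class: the definitions used in the statement.
-/

set_option autoImplicit false

open Set Filter Topology MeasureTheory
open scoped Manifold ContDiff

noncomputable section

namespace Pool.Agent.U896.MFP

open Pool.Agent.Y501.SYP Pool.Agent.U896.SEP Pool.Agent.U896.SWP Pool.Agent.U896.SVP
  Pool.Agent.U896.SCP

variable {d : ℕ} {X : Type} [TopologicalSpace X] [ChartedSpace (ES d) X] {P : Type}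
  [TopologicalSpace P]

/-- the almost complex structures `J_p`, `p ∈ P`, are a continuous family (in the `C⁰` topology) -/
def ContinuousACS (J : P → End (ES d) X) : Prop :=
  (∀ p, IsAlmostComplex (J p)) ∧ ∀ (x₀ : X) (v : ES d),
    ContinuousOn (fun q : P × ES d => inChart (J q.1) x₀ q.2 v)
      (univ ×ˢ (chartAt (ES d) x₀).target)

/-- `σ = σ₀ + dα` for a smooth one-form `α` -/
def Cohomologous (σ σ₀ : Form (ES d) X 2) : Prop :=
  ∃ (α : Form (ES d) X 1) (ρ : Form (ES d) X 2), IsSmooth α ∧ IsSmooth ρ ∧ IsD α ρ ∧ σ = addF σ₀ ρ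

/-- `η_q`, `q ∈ Q`, is a continuous family (in the `C^∞` topology) of closed forms in the class of
`σ₀` -/
def FamilyInClass (σ₀ : Form (ES d) X 2) (Q : Set P) (η : P → Form (ES d) X 2) : Prop :=
  (∀ q ∈ Q, IsSmooth (η q) ∧ IsClosedForm (η q) ∧ Cohomologous (η q) σ₀) ∧
    ∀ (U : Set (ES d)) (φ : ES d → X), SmoothParam U φ → ∀ j : ℕ,
      ContinuousOn (fun q : P × ES d => iteratedFDeriv ℝ j (pb φ (η q.1)) q.2) (Q ×ˢ U)

/-- `J` is Hölder continuous with some exponent `γ`, and `σ` has Morrey growth of some exponent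
`a < γ` -/
def HolderMorrey (σ : Form (ES d) X 2) (J : End (ES d) X) : Prop :=
  ∃ a γ : ℝ, 0 ≤ a ∧ a < γ ∧ γ ≤ 1 ∧ MorreyGrowth a σ ∧ ∀ x, HolderNear γ J x

/-- The almost complex structure `J` is weakly tamed by a measurable form `σ = σ₀ + dβ` in the class
of `σ₀`: `β` and `σ` are locally integrable; off a null set `N` the form `σ` is nonnegative on the
`J`-complex lines, and either its eccentricity is bounded where it is large, or `J` is Hölder
continuous and `σ` has Morrey growth; the components of the set of points near which `σ` is not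
uniformly taming are small. -/
def WeaklyTamedIn (σ₀ : Form (ES d) X 2) (J : End (ES d) X) : Prop :=
  ∃ (N : Set X) (β : Form (ES d) X 1) (σ : Form (ES d) X 2), NullSet (d := d) N ∧ LocInt1 β ∧
    LocInt σ ∧ WeaklyPlusD σ σ₀ β ∧
    (∀ x, x ∉ N → ∀ v : TangentSpace 𝓘(ℝ, ES d) x, 0 ≤ qd σ J x v) ∧
    (∀ z ∈ Crit σ J N, SmallAll J (connectedComponentIn (Crit σ J N) z) z) ∧
    ((∀ x, EccNear σ J N x) ∨ HolderMorrey σ J)

end Pool.Agent.U896.MFP
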